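import Pool.Agent.MNE.StmtsD

/-!
# Row CMB of squad MNE (MP_d2d93c_nt): pure algebra (helper92)

The homomorphism `U ↦ s`, `T ↦ t s` from `ℚ[U][T]` to `ℚ[t][s]`: the degree in `s` is the total degree.
-/

set_option autoImplicit false

open Polynomial

noncomputable section

namespace Pool.Agent.MNE.H92

open Pool.Agent.MNE

/-- `U ↦ s`, `T ↦ t s` -/
def Ph : (ℚ[X])[X] →+* (ℚ[X])[X] := eval₂RingHom (mapRingHom (C : ℚ →+* ℚ[X])) (C X * X)

theorem ph_C (p : ℚ[X]) : Ph (C p) = p.map C := by
  unfold Ph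
  rw [coe_eval₂RingHom, eval₂_C]
  rfl

theorem ph_X : Ph X = C X * X := by
  unfold Ph
  rw [coe_eval₂RingHom, eval₂_X]

theorem ph_coeff (G : (ℚ[X])[X]) (m k : ℕ) :
    ((Ph G).coeff m).coeff k = if k ≤ m then (G.coeff k).coeff (m - k) else 0 := by
  induction G using Polynomial.induction_on' with
  | add p q hp hq =>
    rw [map_add, coeff_add, coeff_add, hp, hq, coeff_add, coeff_add]
    split_ifs <;> simp
  | monomial j p =>
    rw [← C_mul_X_pow_eq_monomial, map_mul, map_pow, ph_C, ph_X, mul_pow, ← C_pow, ← mul_assoc,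
      coeff_mul_X_pow']
    by_cases hjm : j ≤ m
    · rw [if_pos hjm, coeff_mul_C, coeff_map, coeff_C_mul, coeff_X_pow, coeff_C_mul,
        coeff_X_pow]
      by_cases hkj : k = j
      · subst hkj
        rw [if_pos rfl, if_pos hjm]
        simp
      · rw [if_neg hkj]
        simp [hkj]
    · rw [if_neg hjm]
      by_cases hkj : k = j
      · subst hkj
        rw [if_neg hjm]
        simp
      · rw [coeff_C_mul, coeff_X_pow, if_neg hkj]
        simp

/-- the coefficients of the binomial -/
theorem al_coeff (σ : ℚ) (h M b : ℕ) (hh : 0 < h) :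
    ((1 + C σ * X ^ h : ℚ[X]) ^ M).coeff (b * h) = σ ^ b * (M.choose b : ℚ) := by
  have h1 : (1 + C σ * X ^ h : ℚ[X]) ^ M = expand ℚ h (((1 + X) ^ M : ℚ[X]).comp (C σ * X)) := by
    rw [pow_comp, map_pow]
    congr 1
    rw [add_comp, one_comp, X_comp, map_add, map_one, map_mul, expand_C, expand_X]
  rw [h1, coeff_expand_mul hh, comp_C_mul_X_coeff, coeff_one_add_X_pow, mul_comm]

/-- the image of the polynomial of the curve -/
theorem ph_F (h M n Q : ℕ) (σ c κ : ℚ) :
    Ph (Fp h M n Q σ c κ) = C ((1 + C σ * X ^ h) ^ M) * X ^ (h * M) +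
      C (C c * (1 - C σ * X ^ h) ^ n) * X ^ (h * n) - C (C κ * X ^ Q) * X ^ (Q + Q) := by
  have h1 : Ph (C (X ^ h : ℚ[X])) = X ^ h := by
    rw [ph_C, Polynomial.map_pow, map_X]
  have h2 : ∀ r : ℚ, Ph (C (C r : ℚ[X])) = C (C r) := by
    intro r
    rw [ph_C, map_C]
  have h3 : Ph (C (C κ * X ^ Q : ℚ[X]) * X ^ Q) = C (C κ * X ^ Q) * X ^ (Q + Q) := by
    rw [map_mul, ph_C, map_pow, ph_X, Polynomial.map_mul, map_C, Polynomial.map_pow, map_X,
      C_mul, C_pow, mul_pow]
    ring
  unfold Fp
  rw [map_sub, map_add, h3]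
  simp only [map_mul, map_pow, map_add, map_sub, h2, ph_X]
  rw [← map_pow Ph (C X) h, ← C_pow, h1]
  have h4 : (X ^ h + C (C σ) * (C X * X) ^ h : (ℚ[X])[X]) = (1 + C (C σ) * C X ^ h) * X ^ h := by
    rw [mul_pow]
    ring
  have h5 : (X ^ h - C (C σ) * (C X * X) ^ h : (ℚ[X])[X]) = (1 - C (C σ) * C X ^ h) * X ^ h := by
    rw [mul_pow]
    ring
  rw [h4, h5, mul_pow, mul_pow, ← pow_mul, ← pow_mul]
  simp only [map_one, map_pow]
  ring

theorem cmb : CmbStmt := by
  intro h M n P Q σ c κ H H2 hB hF hmon hdeg hlow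
  obtain ⟨hh, hP, hPQ, hM, hn0, hn, -, hσ, hκ⟩ := hB
  have hh0 : 0 < h := by
    rcases hh with h1 | h1
    · omega
    · omega
  -- the two factors
  obtain ⟨A', hA'⟩ : ∃ A' : (ℚ[X])[X], A' = Ph H := ⟨_, rfl⟩
  obtain ⟨B', hB'⟩ : ∃ B' : (ℚ[X])[X], B' = Ph H2 := ⟨_, rfl⟩
  obtain ⟨α, hα⟩ : ∃ α : ℚ[X], α = (1 + C σ * X ^ h) ^ M := ⟨_, rfl⟩
  obtain ⟨β, hβ⟩ : ∃ β : ℚ[X], β = C c * (1 - C σ * X ^ h) ^ n := ⟨_, rfl⟩
  have hprod : A' * B' = C α * X ^ (P + Q) + C β * X ^ (h * n) -
      C (C κ * X ^ Q) * X ^ (Q + Q) := by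
    rw [hA', hB', ← map_mul, ← hF, ph_F, hM, ← hα, ← hβ]
  have hκ0 : κ ≠ 0 := hκ.ne'
  have hHQ : H.coeff Q = 1 := by
    rw [← hdeg]
    exact hmon
  have hHbig : ∀ k, Q < k → H.coeff k = 0 := fun k hk =>
    coeff_eq_zero_of_natDegree_lt (by rw [hdeg]; exact hk)
  -- the coefficients of `A'`
  have hAc : ∀ m k, Q ≤ m → (A'.coeff m).coeff k = if m = Q ∧ k = Q then 1 else 0 := by
    intro m k hm
    rw [hA', ph_coeff]
    by_cases hkm : k ≤ m
    · rw [if_pos hkm]
      rcases lt_trichotomy k Q with hk | hk | hk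
      · rw [if_neg (by omega)]
        by_contra hne
        have := hlow k (m - k) hk hne
        omega
      · subst hk
        rw [hHQ, coeff_one]
        by_cases hmk : m = k
        · rw [if_pos (by omega), if_pos ⟨hmk, rfl⟩]
        · rw [if_neg (by omega), if_neg (by tauto)]
      · rw [hHbig k hk, coeff_zero, if_neg (by omega)]
    · rw [if_neg hkm, if_neg (by omega)]
  have hAQ : A'.coeff Q = X ^ Q := by
    ext k
    rw [hAc Q k le_rfl, coeff_X_pow]
    by_cases hk : k = Q
    · rw [if_pos ⟨rfl, hk⟩, if_pos hk]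
    · rw [if_neg (by tauto), if_neg hk]
  have hAbig : ∀ m, Q < m → A'.coeff m = 0 := by
    intro m hm
    ext k
    rw [hAc m k hm.le, if_neg (by omega), coeff_zero]
  have hXQ : (X ^ Q : ℚ[X]) ≠ 0 := pow_ne_zero _ X_ne_zero
  have hAdeg : A'.natDegree = Q := by
    apply le_antisymm
    · exact natDegree_le_iff_coeff_eq_zero.2 hAbig
    · exact le_natDegree_of_ne_zero (by rw [hAQ]; exact hXQ)
  have hAlow : ∀ m k, m < k → (A'.coeff m).coeff k = 0 := by
    intro m k hk
    rw [hA', ph_coeff, if_neg (by omega)]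
  have hBlow : ∀ m k, m < k → (B'.coeff m).coeff k = 0 := by
    intro m k hk
    rw [hB', ph_coeff, if_neg (by omega)]
  -- the degree and the leading coefficient of `B'`
  have hPc : ∀ N, (A' * B').coeff N = (if N = P + Q then α else 0) + (if N = h * n then β else 0) -
      if N = Q + Q then C κ * X ^ Q else 0 := by
    intro N
    rw [hprod, coeff_sub, coeff_add, coeff_C_mul, coeff_C_mul, coeff_C_mul, coeff_X_pow,
      coeff_X_pow, coeff_X_pow]
    split_ifs <;> simp
  have hκX : (C κ * X ^ Q : ℚ[X]) ≠ 0 := mul_ne_zero (C_ne_zero.2 hκ0) hXQ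
  have hPdeg : (A' * B').natDegree = Q + Q := by
    apply le_antisymm
    · apply natDegree_le_iff_coeff_eq_zero.2
      intro N hN
      rw [hPc, if_neg (by omega), if_neg (by omega), if_neg (by omega)]
      simp
    · apply le_natDegree_of_ne_zero
      rw [hPc, if_neg (by omega), if_neg (by omega), if_pos rfl]
      simpa using hκX
  have hA0 : A' ≠ 0 := by
    intro h0
    rw [h0, coeff_zero] at hAQ
    exact hXQ hAQ.symm
  have hB0 : B' ≠ 0 := by
    intro h0
    rw [h0, mul_zero, natDegree_zero] at hPdeg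
    omega
  have hBdeg : B'.natDegree = Q := by
    have h1 := natDegree_mul hA0 hB0
    rw [hPdeg, hAdeg] at h1
    omega
  have hBQ : B'.coeff Q = -C κ := by
    have h1 := leadingCoeff_mul A' B'
    have h2 : (A' * B').leadingCoeff = -(C κ * X ^ Q) := by
      unfold leadingCoeff
      rw [hPdeg, hPc, if_neg (by omega), if_neg (by omega), if_pos rfl]
      simp
    have h3 : A'.leadingCoeff = X ^ Q := by
      unfold leadingCoeff
      rw [hAdeg, hAQ]
    have h4 : B'.leadingCoeff = B'.coeff Q := by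
      unfold leadingCoeff
      rw [hBdeg]
    rw [h2, h3, h4] at h1
    have h5 : X ^ Q * B'.coeff Q = X ^ Q * (-C κ) := by
      rw [← h1]
      ring
    exact mul_left_cancel₀ hXQ h5
  have hBbig : ∀ m, Q < m → B'.coeff m = 0 := fun m hm =>
    coeff_eq_zero_of_natDegree_lt (by rw [hBdeg]; exact hm)
  -- the lower parts
  obtain ⟨A, hA⟩ : ∃ A : (ℚ[X])[X], A = A' - C (X ^ Q) * X ^ Q := ⟨_, rfl⟩
  obtain ⟨B, hB⟩ : ∃ B : (ℚ[X])[X], B = B' + C (C κ) * X ^ Q := ⟨_, rfl⟩
  have hAcf : ∀ m, A.coeff m = if m < Q then A'.coeff m else 0 := by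
    intro m
    rw [hA, coeff_sub, coeff_C_mul, coeff_X_pow]
    rcases lt_trichotomy m Q with hm | hm | hm
    · rw [if_neg (by omega), if_pos hm, mul_zero, sub_zero]
    · rw [hm, hAQ, if_pos rfl, if_neg (lt_irrefl _), mul_one, sub_self]
    · rw [if_neg (by omega), if_neg (by omega), hAbig m hm, mul_zero, sub_zero]
  have hBcf : ∀ m, B.coeff m = if m < Q then B'.coeff m else 0 := by
    intro m
    rw [hB, coeff_add, coeff_C_mul, coeff_X_pow]
    rcases lt_trichotomy m Q with hm | hm | hm
    · rw [if_neg (by omega), if_pos hm, mul_zero, add_zero]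
    · rw [hm, hBQ, if_pos rfl, if_neg (lt_irrefl _), mul_one, neg_add_cancel]
    · rw [if_neg (by omega), if_neg (by omega), hBbig m hm, mul_zero, add_zero]
  have hAlow' : ∀ m k, m < k → (A.coeff m).coeff k = 0 := by
    intro m k hk
    rw [hAcf]
    split_ifs
    · exact hAlow m k hk
    · exact coeff_zero k
  have hBlow' : ∀ m k, m < k → (B.coeff m).coeff k = 0 := by
    intro m k hk
    rw [hBcf]
    split_ifs
    · exact hBlow m k hk
    · exact coeff_zero k
  have hid : A * B + (C (X ^ Q) * B - C (C κ) * A) * X ^ Q = C α * X ^ (P + Q) +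
      C β * X ^ (h * n) := by
    have h1 : A' = A + C (X ^ Q) * X ^ Q := by rw [hA]; ring
    have h2 : B' = B - C (C κ) * X ^ Q := by rw [hB]; ring
    have h3 := hprod
    rw [h1, h2, C_mul, pow_add] at h3
    have h4 : (A + C (X ^ Q) * X ^ Q) * (B - C (C κ) * X ^ Q) =
        (A * B + (C (X ^ Q) * B - C (C κ) * A) * X ^ Q) -
          C (C κ) * C (X ^ Q) * (X ^ Q * X ^ Q) := by ring
    rw [h4, pow_add X Q Q] at h3
    rw [pow_add]
    linear_combination h3
  have hidc : ∀ N, (A * B).coeff N + (if Q ≤ N then X ^ Q * B.coeff (N - Q) -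
      C κ * A.coeff (N - Q) else 0) = (if N = P + Q then α else 0) +
        (if N = h * n then β else 0) := by
    intro N
    have h1 : (A * B + (C (X ^ Q) * B - C (C κ) * A) * X ^ Q).coeff N =
        (C α * X ^ (P + Q) + C β * X ^ (h * n)).coeff N := by rw [hid]
    rw [coeff_add, coeff_mul_X_pow', coeff_add, coeff_C_mul_X_pow, coeff_C_mul_X_pow] at h1
    rw [← h1]
    by_cases hQN : Q ≤ N
    · rw [if_pos hQN, if_pos hQN, coeff_sub, coeff_C_mul, coeff_C_mul]
    · rw [if_neg hQN, if_neg hQN]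
  -- if all parts of degree larger than `m` vanish
  have hcut : ∀ m, m < Q → (∀ i, m < i → A.coeff i = 0 ∧ B.coeff i = 0) → ∀ N, m + m < N →
      (A * B).coeff N = 0 := by
    intro m _ hz N hN
    rw [coeff_mul]
    refine Finset.sum_eq_zero fun x hx => ?_
    have hx' := Finset.HasAntidiagonal.mem_antidiagonal.1 hx
    by_cases h1 : m < x.1
    · rw [(hz _ h1).1, zero_mul]
    · rw [(hz x.2 (by omega)).2, mul_zero]
  have hzero : ∀ m, m < Q → X ^ Q * B.coeff m = C κ * A.coeff m → A.coeff m = 0 ∧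
      B.coeff m = 0 := by
    intro m hm he
    have h1 : ∀ k, (A.coeff m).coeff k = 0 := by
      intro k
      by_cases hk : m < k
      · exact hAlow' m k hk
      · have h2 := congrArg (fun p => coeff p k) he
        simp only [coeff_X_pow_mul', coeff_C_mul] at h2
        rw [if_neg (by omega)] at h2
        exact (mul_eq_zero.1 h2.symm).resolve_left hκ0
    have h2 : A.coeff m = 0 := by
      ext k
      rw [h1 k, coeff_zero]
    refine ⟨h2, ?_⟩
    rw [h2, mul_zero] at he
    exact (mul_eq_zero.1 he).resolve_left hXQ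
  have hvan : ∀ i, P < i → A.coeff i = 0 ∧ B.coeff i = 0 := by
    -- downward induction
    have key : ∀ j, ∀ i, P < i → Q ≤ i + j → A.coeff i = 0 ∧ B.coeff i = 0 := by
      intro j
      induction j with
      | zero =>
        intro i _ hi
        rw [hAcf, hBcf, if_neg (by omega), if_neg (by omega)]
        exact ⟨rfl, rfl⟩
      | succ j ih =>
        intro i hi1 hi2
        by_cases hiQ : Q ≤ i
        · rw [hAcf, hBcf, if_neg (by omega), if_neg (by omega)]
          exact ⟨rfl, rfl⟩
        · push Not at hiQ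
          apply hzero i hiQ
          have h1 := hidc (Q + i)
          rw [hcut i hiQ (fun i' hi' => ih i' (by omega) (by omega)) (Q + i) (by omega),
            if_pos (by omega), if_neg (by omega), if_neg (by omega), Nat.add_sub_cancel_left] at h1
          rw [zero_add, zero_add] at h1
          exact sub_eq_zero.1 h1
    intro i hi
    exact key Q i hi (by omega)
  have hstar : X ^ Q * B.coeff P - C κ * A.coeff P = α := by
    have h1 := hidc (Q + P)
    rw [hcut P hPQ hvan (Q + P) (by omega), if_pos (by omega), if_pos (by omega),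
      if_neg (by omega), Nat.add_sub_cancel_left, zero_add, add_zero] at h1
    exact h1
  -- the coefficients of `α`
  have hαb : ∀ b, α.coeff (b * h) = σ ^ b * (M.choose b : ℚ) := by
    intro b
    rw [hα]
    exact al_coeff σ h M b hh0
  have hσ0 : σ ≠ 0 := by
    rcases hσ with h1 | h1 <;> rw [h1] <;> norm_num
  have hgap : ∀ e, P < e → e < Q → α.coeff e = 0 := by
    intro e he1 he2
    rw [← hstar, coeff_sub, coeff_X_pow_mul', coeff_C_mul, if_neg (by omega),
      hAlow' P e he1, mul_zero, sub_zero]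
  have hno : ∀ b, P < b * h → b * h < Q → False := by
    intro b hb1 hb2
    have h1 := hgap (b * h) hb1 hb2
    rw [hαb] at h1
    have hbM : b ≤ M := by
      by_contra hcon
      push Not at hcon
      have : h * M < b * h := by
        rw [mul_comm h M]
        exact (Nat.mul_lt_mul_right hh0).2 hcon
      omega
    have h2 : (M.choose b : ℚ) ≠ 0 := by
      exact_mod_cast (Nat.choose_pos hbM).ne'
    exact (mul_ne_zero (pow_ne_zero _ hσ0) h2) h1
  by_cases hQ1 : P + 1 < Q
  · rcases hh with h1 | ⟨h1, ho, -⟩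
    · exact hno (P + 1) (by rw [h1]; omega) (by rw [h1]; omega)
    · obtain ⟨r, hr⟩ := ho
      exact hno (r + 1) (by rw [h1, hr]; omega) (by rw [h1]; omega)
  · have hQP : Q = P + 1 := by omega
    have hh1 : h = 1 := by
      rcases hh with h1 | ⟨h1, ⟨r, hr⟩, ⟨r', hr'⟩⟩
      · exact h1
      · omega
    subst hh1
    have hMP : M = 2 * P + 1 := by omega
    have hα1 : ∀ b, α.coeff b = σ ^ b * (M.choose b : ℚ) := by
      intro b
      have := hαb b
      rwa [mul_one] at this
    have hAk : ∀ k, k ≤ P → κ * (A.coeff P).coeff k = -(σ ^ k * (M.choose k : ℚ)) := by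
      intro k hk
      have h1 := hα1 k
      rw [← hstar, coeff_sub, coeff_X_pow_mul', coeff_C_mul, if_neg (by omega), zero_sub] at h1
      linarith
    have hBk : ∀ k, k ≤ P → (B.coeff P).coeff k = σ ^ (k + Q) * (M.choose (k + Q) : ℚ) := by
      intro k hk
      have h1 := hα1 (k + Q)
      rw [← hstar, coeff_sub, coeff_X_pow_mul', coeff_C_mul, if_pos (by omega),
        hAlow' P (k + Q) (by omega), mul_zero, sub_zero, Nat.add_sub_cancel] at h1
      exact h1
    have h2P := hidc (P + P)
    have hAB : (A * B).coeff (P + P) = A.coeff P * B.coeff P := by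
      rw [coeff_mul]
      rw [Finset.sum_eq_single (P, P)]
      · intro x hx hne
        have hx' := Finset.HasAntidiagonal.mem_antidiagonal.1 hx
        by_cases h1 : P < x.1
        · rw [(hvan _ h1).1, zero_mul]
        · by_cases h3 : P < x.2
          · rw [(hvan _ h3).2, mul_zero]
          · exfalso
            apply hne
            ext
            · show x.1 = P
              omega
            · show x.2 = P
              omega
      · intro hx
        exfalso
        apply hx
        rw [Finset.HasAntidiagonal.mem_antidiagonal]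
    rw [hAB, if_pos (by omega), if_neg (by omega), if_neg (by omega), add_zero] at h2P
    have h3 := congrArg (fun p => coeff p P) h2P
    simp only [coeff_add, coeff_sub, coeff_X_pow_mul', coeff_C_mul, coeff_zero] at h3
    rw [if_neg (by omega), hAlow' (P + P - Q) P (by omega), mul_zero, sub_zero, add_zero] at h3
    rw [coeff_mul] at h3
    have h4 : κ * ∑ x ∈ Finset.HasAntidiagonal.antidiagonal P, (A.coeff P).coeff x.1 * (B.coeff P).coeff x.2 =
        -(σ ^ (2 * P + 1) * ∑ x ∈ Finset.HasAntidiagonal.antidiagonal P, (M.choose x.1 : ℚ) ^ 2) := by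
      rw [Finset.mul_sum, Finset.mul_sum, ← Finset.sum_neg_distrib]
      refine Finset.sum_congr rfl fun x hx => ?_
      have hx' := Finset.HasAntidiagonal.mem_antidiagonal.1 hx
      rw [← mul_assoc, hAk x.1 (by omega), hBk x.2 (by omega)]
      have h5 : M.choose (x.2 + Q) = M.choose x.1 := by
        rw [← Nat.choose_symm_of_eq_add (n := M) (a := x.1) (b := x.2 + Q) (by omega)]
      rw [h5, show 2 * P + 1 = x.1 + (x.2 + Q) by omega, pow_add σ x.1]
      ring
    rw [h3, mul_zero] at h4
    have h5 : 0 < ∑ x ∈ Finset.HasAntidiagonal.antidiagonal P, (M.choose x.1 : ℚ) ^ 2 := by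
      apply Finset.sum_pos
      · intro x hx
        have hx' := Finset.HasAntidiagonal.mem_antidiagonal.1 hx
        have : 0 < M.choose x.1 := Nat.choose_pos (by omega)
        positivity
      · exact ⟨(0, P), Finset.HasAntidiagonal.mem_antidiagonal.2 (zero_add P)⟩
    have h6 : σ ^ (2 * P + 1) ≠ 0 := pow_ne_zero _ hσ0
    have h7 := mul_ne_zero h6 h5.ne'
    apply h7
    linarith

end Pool.Agent.MNE.H92
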